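import Pool.Agent.R598.TY.Main

set_option autoImplicit false

namespace Pool.Agent.Results.MP_d9473e_lc.TychonoffCubeNotCACfin

open Pool.Agent.W868 Pool.Agent.R598.TY

/-- There is a countable transitive model of ZF in which every compact metrizable space is
embeddable in the Tychonoff cube, but some denumerable family of non-empty finite sets has no
choice function. -/
theorem result : ∃ M : Set ZFSet.{0}, M.Countable ∧ IsZF M ∧ MCEmb M ∧ ¬ CACfin M := main

end Pool.Agent.Results.MP_d9473e_lc.TychonoffCubeNotCACfin
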